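import Pool.Agent.K6.H24.KR.X10
import Pool.Agent.K6.H24.OP.H4

/-!
# KLS for exchangeable log-concave measures conditioned on order relations

Let `μ₀` be an exchangeable probability measure on `ℝⁿ` (invariant under permutations of the
coordinates), let `R` be a partial order on the coordinates and let `μ` be `μ₀` conditioned on the
event `{x_i ≤ x_j whenever R i j}`. (These events are all the convex cones bounded by hyperplanes
`x_i = x_j`.)

* Comparison. If `x_i ≠ x_j` almost surely for `i ≠ j`, then `μ` satisfies every Poincaré inequality
  that `μ₀` satisfies, with the same constant; `μ₀` log-concave or not.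
* KLS. Let `μ₀` be log-concave. Then `μ` satisfies Q1 with an absolute constant, in E. Milman's
  equivalent form (variance bound for Lipschitz functions, weak Poincaré inequality for bounded
  functions) if `R` does not connect all coordinates (there is a nonempty proper set of coordinates
  which are not compared with the others), or if the coordinates of `μ₀` are not negatively
  correlated; for all `R` this holds with the covariance matrix of `μ₀` in the place of the one of
  `μ`; and as a true Poincaré inequality if `μ₀` is also invariant under changes of signs of the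
  coordinates.

`R` empty is the starting result `Exchangeable`, and `OneSymmetric` in the last part. Product
densities (with the exact constants) are in our `OrderRelations`.

Method. (1) Comparison (modules `J1`-`J9`, `X8`). The points are randomly rounded to a grid with
quadratic spline weights; a Poincaré inequality for `μ₀` gives one for the rounded law on the grid
with almost the same constant. A reversible chain on the sorted grid points carries labels in their
ranks; labels in ranks at the same site are exchanged at a high rate if the relations allow it. The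
exchange at a bond of ranks maps functions which are Lipschitz for the distance
`∑ |ψ(z_i) - ψ(w_i)|` of labellings to functions which are Lipschitz for the averaged `ψ`; for a
common path of the sorted points this gives: the spectral gap with order relations is at least the
gap without relations. Then the limit of fine grids. (2) The local Poincaré inequalities of the
starting file `W586.SK.CoreX` for an exchangeable log-concave measure restricted to
`{∑ |x_i| ≤ a n}`; the restriction is exchangeable, so (1) gives the same local inequalities for `μ`
(`X1`, `X2`). (3) Symmetric sets keep their measure, so the tail of `∑ |x_i|` is the same for `μ` and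
`μ₀`, and the local inequalities give the variance bound for Lipschitz functions (`X3`). (4) Bounded
functions, unbounded support, centering (`X4`, `X5`, `PieceQ`). (5) Sums over all coordinates, and
differences of averages over two blocks of coordinates which `R` does not compare, keep their
variance under the conditioning (`PieceL`, `PieceM`, `X6`). (6) Sign invariant measures: (1) and the
starting result `OneSymmetric` (`J11`). (7) Densities with all the symmetries of the measure (`X10`).

Formalised by helper24 with helper1, helper5, helper9, helper13, helper22, helper27, helper29,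
helper44, helper66, helper69, helper86 (modules `Piece*`), on top of the starting files of
`Exchangeable` and `OneSymmetric`.
-/

set_option autoImplicit false

namespace Pool.Agent.Results.MP_6d896a_gt.ExchangeableOrder

open MeasureTheory
open scoped InnerProductSpace ENNReal

/-- Euclidean space of dimension `n` -/
abbrev Euc (n : ℕ) : Type := EuclideanSpace ℝ (Fin n)

/-- the convex cone `{x ∈ ℝⁿ | x_i ≤ x_j whenever R i j}` -/
def orderCone {n : ℕ} (R : Fin n → Fin n → Prop) : Set (Euc n) :=
  {x | ∀ i j, R i j → x i ≤ x j}

/-- `μ` is invariant under permutations of the coordinates -/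
def Exchangeable {n : ℕ} (μ : Measure (Euc n)) : Prop :=
  ∀ σ : Equiv.Perm (Fin n), Measure.map (fun x : Euc n => WithLp.toLp 2 fun i => x (σ i)) μ = μ

/-- `μ` is invariant under changes of signs of the coordinates -/
def SignInvariant {n : ℕ} (μ : Measure (Euc n)) : Prop :=
  ∀ ε : Fin n → ℤˣ,
    Measure.map (fun x : Euc n => WithLp.toLp 2 fun i => ((ε i : ℤ) : ℝ) * x i) μ = μ

/-- no two coordinates are equal, almost surely -/
def NoTies {n : ℕ} (μ : Measure (Euc n)) : Prop :=
  ∀ i j, i ≠ j → μ {x | x i = x j} = 0

/-- `μ` has a log-concave density -/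
def LogConcave {n : ℕ} (μ : Measure (Euc n)) : Prop :=
  ∃ ρ : Euc n → ℝ, (∀ x, 0 ≤ ρ x) ∧ Measurable ρ ∧
    (∀ x y, ∀ t : ℝ, 0 < t → t < 1 → ρ x ^ (1 - t) * ρ y ^ t ≤ ρ ((1 - t) • x + t • y)) ∧
    μ = volume.withDensity fun x => ENNReal.ofReal (ρ x)

/-- `Var ⟪θ, X⟫ ≤ s ‖θ‖²` for all `θ`: the covariance matrix of `μ` has norm at most `s`
(variances with values in `[0, ∞]`) -/
def CovLe {n : ℕ} (μ : Measure (Euc n)) (s : ℝ) : Prop :=
  ∀ θ : Euc n, ProbabilityTheory.evariance (fun x => ⟪θ, x⟫_ℝ) μ ≤ ENNReal.ofReal (s * ‖θ‖ ^ 2)

/-- the relations do not connect all coordinates: there is a set `A` of coordinates, not empty and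
not everything, such that no coordinate in `A` is compared with a coordinate outside of `A` -/
def Disconnected {n : ℕ} (R : Fin n → Fin n → Prop) : Prop :=
  ∃ A : Finset (Fin n), A.Nonempty ∧ Aᶜ.Nonempty ∧ ∀ i ∈ A, ∀ j ∉ A, ¬ R i j ∧ ¬ R j i

/-- no two coordinates are negatively correlated -/
def NotNegativelyCorrelated {n : ℕ} (μ : Measure (Euc n)) : Prop :=
  ∀ i j : Fin n, i ≠ j →
    0 ≤ ProbabilityTheory.covariance (fun x : Euc n => x i) (fun x => x j) μ

/-- the two equivalent forms of the KLS inequality, with the constant `D`: every `C¹` function with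
`‖∇ f‖ ≤ 1` is square integrable and has variance at most `D`, and every `C¹` function with
`|f| ≤ 1` satisfies `(Var f)² ≤ D E ‖∇ f‖²` -/
def VarianceBounds {n : ℕ} (μ : Measure (Euc n)) (D : ℝ) : Prop :=
  ∀ f : Euc n → ℝ, ContDiff ℝ 1 f →
    ((∀ x, ‖fderiv ℝ f x‖ ≤ 1) → MemLp f 2 μ ∧ ProbabilityTheory.variance f μ ≤ D) ∧
    ((∀ x, |f x| ≤ 1) → ENNReal.ofReal (ProbabilityTheory.variance f μ ^ 2) ≤
      ENNReal.ofReal D * ∫⁻ x, ENNReal.ofReal (‖fderiv ℝ f x‖ ^ 2) ∂μ)

/-- Poincaré inequality with constant `D`: every `C¹` function `f` whose gradient is in `L²(μ)` is in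
`L²(μ)` and `Var_μ f ≤ D ∫ ‖∇ f‖² dμ` -/
def Poincare {n : ℕ} (μ : Measure (Euc n)) (D : ℝ) : Prop :=
  ∀ f : Euc n → ℝ, ContDiff ℝ 1 f → MemLp (fun x => ‖fderiv ℝ f x‖) 2 μ →
    MemLp f 2 μ ∧ ProbabilityTheory.variance f μ ≤ D * ∫ x, ‖fderiv ℝ f x‖ ^ 2 ∂μ

/-- **KLS for exchangeable log-concave measures conditioned on order relations.** There is an absolute
constant `C` such that the following holds for all `n ≥ 1`, all partial orders `R` on `n` points
(reflexive or strict: only antisymmetry and transitivity are assumed) and all exchangeable
probability measures `μ₀` on `ℝⁿ`. Let `μ` be `μ₀` conditioned on `{x_i ≤ x_j whenever R i j}`. Then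
`μ` is a probability measure (the event has positive probability) and:
(0) if `μ₀` has no ties and satisfies a Poincaré inequality, then `μ` satisfies it with the same
constant;
if `μ₀` is log-concave (it has no ties then), then
(1) if the covariance matrix of `μ₀` has norm at most `s`, then `μ` satisfies the variance bounds with
the constant `C s`;
(2) if the covariance matrix of `μ` has norm at most `s`, and `R` does not connect all coordinates
or no two coordinates of `μ₀` are negatively correlated, then `μ` satisfies the variance bounds with
the constant `C s`;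
(3) if the covariance matrix of `μ` has norm at most `s`, and `μ₀` is invariant under changes of
signs of the coordinates, then `μ` satisfies the Poincaré inequality with the constant `C s`. -/
theorem result : ∃ C : ℝ, 0 < C ∧ ∀ (n : ℕ) (R : Fin n → Fin n → Prop), 1 ≤ n →
    (∀ a b, R a b → R b a → a = b) → (∀ a b c, R a b → R b c → R a c) →
    ∀ μ₀ : Measure (Euc n), IsProbabilityMeasure μ₀ → Exchangeable μ₀ →
    ∀ μ : Measure (Euc n), μ = ProbabilityTheory.cond μ₀ (orderCone R) →
      IsProbabilityMeasure μ ∧
      (NoTies μ₀ → ∀ D : ℝ, 0 ≤ D → Poincare μ₀ D → Poincare μ D) ∧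
      (LogConcave μ₀ → NoTies μ₀ ∧
        (∀ s : ℝ, CovLe μ₀ s → VarianceBounds μ (C * s)) ∧
        (∀ s : ℝ, CovLe μ s → (Disconnected R ∨ NotNegativelyCorrelated μ₀) →
          VarianceBounds μ (C * s)) ∧
        (∀ s : ℝ, CovLe μ s → SignInvariant μ₀ → Poincare μ (C * s))) := by
  obtain ⟨C, hC, h⟩ := Pool.Agent.K6.H24.KR.full
  refine ⟨C, hC, ?_⟩
  intro n R hn ha ht μ₀ hp hex μ hμ
  have hR := Pool.Agent.K6.H24.OP.ext_of_po ha ht
  have hμ' : μ = ProbabilityTheory.cond μ₀ (Pool.Agent.K6.H24.OP.cone R) := hμ
  obtain ⟨h1, h2, h3⟩ := h n R hn hR μ₀ hp hex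
  rw [hμ']
  refine ⟨h1, h2, fun hl => ?_⟩
  obtain ⟨g0, g1, g2, g3⟩ := h3 hl
  exact ⟨g0, g1, g2, fun s hs hsg => g3 hsg s hs⟩

end Pool.Agent.Results.MP_6d896a_gt.ExchangeableOrder
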