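import Pool.Agent.K6.H81.PS.Fin
import Pool.Agent.TH594.KP.Spec

/-!
# KLS for the symmetries of products of simplices

The Kannan-Lovasz-Simonovits inequality, in the equivalent (E. Milman) form of a variance bound for
Lipschitz functions, for log-concave probability measures with the symmetries of a product of
regular simplices (and tensor products of such symmetries with `ℝ^d`): configurations of `N`
particles of `q` species in `ℝ^d` such that the centres of mass of the species in a set `Z` of
species are at the origin, distribution invariant under the permutations which preserve the species.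

If all centres of mass are fixed and every species has at least `log q` particles, the constant
depends only on `d`, neither on the numbers of particles nor on the number `q` of species. (In
`Pool.Agent.Results.MP_6d896a_gt.Particles`, starting files, no centre of mass is fixed, and the
constant has a factor `q`.)

Method. The measure is multiplied with a strongly log-concave density for the fixed centres of mass.
The discrete Bochner inequality and the Hardy inequality for functions odd under the exchange of two
particles are those of `Pool.Agent.TH594.KP` (starting files); new is (1) a strengthened tail bound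
`P(∑ |x_i| > C l n_c) ≤ exp (- 3 n_c (l - 1))` for each species with fixed centre of mass, from
the majorization of the marginal density (Birkhoff's theorem) and volumes of slabs of cubes: this
replaces the union bound over the species, and (2) no tilt is necessary in the directions of the
fixed centres of mass.
-/

set_option autoImplicit false

namespace Pool.Agent.Results.MP_6d896a_gt.FixedCentres

open MeasureTheory Set
open scoped ENNReal InnerProductSpace

/-- configurations of `N` particles in `ℝ^d`: `x (i, α)` is the coordinate `α` of the particle `i` -/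
abbrev Conf (N d : ℕ) : Type := EuclideanSpace ℝ (Fin N × Fin d)

/-- `j` is an isometric linear parametrization, by `ℝ^m`, of the space of all configurations for which
the centre of mass of every species in `Z` is at the origin; `b i` is the species of the
particle `i`. -/
def Parametrizes {N d q m : ℕ} (b : Fin N → Fin q) (Z : Finset (Fin q))
    (j : EuclideanSpace ℝ (Fin m) →ₗᵢ[ℝ] Conf N d) : Prop :=
  ∀ x : Conf N d, (∃ y, j y = x) ↔ ∀ c ∈ Z, ∀ α : Fin d, ∑ i with b i = c, x (i, α) = 0

/-- `ρ` is a log-concave density on the space of these configurations which does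
not change when the particles are permuted within their species. -/
structure SpeciesDensity {N d q m : ℕ} (b : Fin N → Fin q)
    (j : EuclideanSpace ℝ (Fin m) →ₗᵢ[ℝ] Conf N d) (ρ : EuclideanSpace ℝ (Fin m) → ℝ) : Prop where
  nonneg : ∀ x, 0 ≤ ρ x
  meas : Measurable ρ
  logc : ∀ x y, ∀ t : ℝ, 0 < t → t < 1 → ρ x ^ (1 - t) * ρ y ^ t ≤ ρ ((1 - t) • x + t • y)
  inv : ∀ σ : Equiv.Perm (Fin N), (∀ i, b (σ i) = b i) → ∀ x y : EuclideanSpace ℝ (Fin m),
    (∀ i α, j y (i, α) = j x (σ i, α)) → ρ y = ρ x

/-- `Var ⟪θ, X⟫ ≤ s ‖θ‖²` for all `θ`: the covariance matrix of `μ` has norm at most `s`. -/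
def CovLe {m : ℕ} (μ : Measure (EuclideanSpace ℝ (Fin m))) (s : ℝ) : Prop :=
  ∀ θ : EuclideanSpace ℝ (Fin m), ProbabilityTheory.evariance (fun x => ⟪θ, x⟫_ℝ) μ ≤
    ENNReal.ofReal (s * ‖θ‖ ^ 2)

/-- the factor: `d` is the dimension, `q` the number of species with free centre of mass -/
noncomputable def factor (d q : ℕ) (T : ℝ) : ℝ :=
  (d : ℝ) ^ 6 * (1 + q) * (1 + T + Real.log (1 + q)) ^ 2

/-- **KLS for particles with fixed centres of mass (symmetries of products of simplices).** There is
an absolute constant `C` such that for all `N`, `d ≥ 1`, `q`, every surjective map `b` assigning to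
each of the `N` particles one of the `q` species, every set `Z` of species, every `T ≥ 0` with
`∑ c ∈ Z, exp (-T n_c) ≤ 1` (`n_c` is the number of particles of the species `c`), every log-concave
probability density `ρ` on the space of the configurations in `ℝ^d` for which the centres of mass of
the species in `Z` are at the origin, invariant under the permutations of the particles preserving
the species, and every `s > 0` such that the covariance matrix has norm at most `s`: every `C¹`
function with `‖∇ f‖ ≤ 1` has variance at most `C d⁶ (1 + q₀) (1 + T + log (1 + q₀))² s`, where `q₀`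
is the number of species not in `Z`, and every `C¹` function with `|f| ≤ 1` satisfies
`(Var f)² ≤ C d⁶ (1 + q₀) (1 + T + log (1 + q₀))² s E ‖∇ f‖²`. -/
theorem result : ∃ C : ℝ, 0 < C ∧ ∀ N d q m : ℕ, 1 ≤ d →
    ∀ b : Fin N → Fin q, Function.Surjective b → ∀ Z : Finset (Fin q),
    ∀ T : ℝ, 0 ≤ T → ∑ c ∈ Z, Real.exp (-(T * (Finset.univ.filter fun i => b i = c).card)) ≤ 1 →
    ∀ j : EuclideanSpace ℝ (Fin m) →ₗᵢ[ℝ] Conf N d, Parametrizes b Z j →
    ∀ ρ : EuclideanSpace ℝ (Fin m) → ℝ, SpeciesDensity b j ρ →
    ∀ μ : Measure (EuclideanSpace ℝ (Fin m)),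
    μ = volume.withDensity (fun x => ENNReal.ofReal (ρ x)) → IsProbabilityMeasure μ →
    ∀ s : ℝ, 0 < s → CovLe μ s → ∀ f : EuclideanSpace ℝ (Fin m) → ℝ, ContDiff ℝ 1 f →
    ((∀ x, ‖fderiv ℝ f x‖ ≤ 1) → MemLp f 2 μ ∧
      ProbabilityTheory.variance f μ ≤ C * factor d Zᶜ.card T * s) ∧
    ((∀ x, |f x| ≤ 1) → ENNReal.ofReal (ProbabilityTheory.variance f μ ^ 2) ≤
      ENNReal.ofReal (C * factor d Zᶜ.card T * s) *
        ∫⁻ x, ENNReal.ofReal (‖fderiv ℝ f x‖ ^ 2) ∂μ) := by
  obtain ⟨C, hC, H⟩ := Pool.Agent.K6.H81.PS.sc
  refine ⟨8 * C, by positivity, ?_⟩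
  intro N d q m hd b hb Z T hT hTs j hj ρ hρ μ hμ hprob s hs hcov f hf
  subst hμ
  have hp : Pool.Agent.K6.H81.PS.Par b Z j := by
    refine ⟨hb, fun x => ?_⟩
    rw [hj x]
    constructor
    · rintro h ⟨c, α⟩ hc
      rw [Pool.Agent.TH594.KP.inner_ev]
      have h1 : ∑ i ∈ Pool.Agent.TH594.KP.Bs b c, x (i, α) = 0 := h c hc α
      show _ * ∑ i ∈ Pool.Agent.TH594.KP.Bs b c, x (i, α) = 0
      rw [h1, mul_zero]
    · intro h c hc α
      have h1 := h (c, α) hc
      rw [Pool.Agent.TH594.KP.inner_ev] at h1
      have h2 : (0 : ℝ) < (Pool.Agent.TH594.KP.Bs b c).card := by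
        exact_mod_cast Pool.Agent.TH594.KP.card_Bs_pos hb c
      have h3 : (1 / Real.sqrt (Pool.Agent.TH594.KP.Bs b c).card) ≠ 0 :=
        (one_div_pos.2 (Real.sqrt_pos.2 h2)).ne'
      exact (mul_eq_zero.1 h1).resolve_left h3
  have hG : Pool.Agent.TH594.KP.GD (Pool.Agent.K6.H81.PS.GW b j) ρ := by
    refine ⟨hρ.nonneg, hρ.meas, hρ.logc, ?_⟩
    rintro g ⟨k, l, hkl, hg⟩ x
    refine hρ.inv (Equiv.swap k l) (Pool.Agent.TH594.KP.swap_fix hkl) x _ fun i α => ?_
    rw [hg]
    exact Pool.Agent.TH594.KP.swp_apply k l (j x) (i, α)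
  have hd' : 0 < Fintype.card (Fin d) := by
    rw [Fintype.card_fin]
    exact hd
  have hq0 : Pool.Agent.K6.H81.PS.q0 Z = Zᶜ.card := by
    have h7 : Pool.Agent.K6.H81.PS.q0 Z = (Finset.univ.filter fun c => c ∉ Z).card :=
      Fintype.card_of_subtype _ fun c => by simp
    rw [h7]
    congr 1
    ext c
    simp
  have hsc := H hp hd' hT hTs
  rw [Fintype.card_fin, hq0] at hsc
  have hfac := Pool.Agent.K6.H81.PS.fac_pos hd Zᶜ.card hT
  have key := Pool.Agent.TH594.KP.full (mul_pos hC hfac) hsc ρ hG hprob.measure_univ
    s hs hcov f hf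
  have e : 8 * (C * Pool.Agent.K6.H81.PS.fac d Zᶜ.card T) * s =
      8 * C * factor d Zᶜ.card T * s := by
    unfold Pool.Agent.K6.H81.PS.fac factor
    ring
  rw [e] at key
  exact key

end Pool.Agent.Results.MP_6d896a_gt.FixedCentres
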