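import Pool.Agent.K6.H46.LT.K7
import Pool.Agent.K6.H46.LT.PieceD1
import Pool.Agent.K6.H46.LT.PieceD2
import Pool.Agent.K6.H46.LT.PieceL1
import Pool.Agent.K6.H46.LT.PieceL2
import Pool.Agent.K6.H46.LT.PieceE
import Pool.Agent.K6.H46.LT.PieceQ
import Pool.Agent.K6.H46.LT.PieceT

/-!
# KLS for product measures tilted by log-concave multi-affine polynomials

Q1, in the equivalent (Cheeger, Buser, Ledoux) form of a Poincare inequality and with an absolute
constant, for all log-concave probability measures with a density proportional to

  `F(x) ∏ h_i(x_i)`  on the positive orthant,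

where `n` is arbitrary, `h_1, …, h_n` are arbitrary integrable log-concave functions on the half-line
and `F(x) = ∑_S c_S ∏_{i ∈ S} x_i` is an arbitrary multi-affine polynomial with coefficients
`c_S ≥ 0` which is log-concave on the orthant (homogeneous: the multi-affine Lorentzian polynomials,
for instance the basis generating polynomials of matroids, `det (∑ x_i v_i v_iᵀ)`, the spanning tree
polynomials; not homogeneous: for instance `det (1 + ∑ x_i v_i v_iᵀ)`, `∑ x_i + 1`, independent set
generating polynomials of matroids), and for all their linear images, singular ones included.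

Method. `μ` is a mixture, over the subsets `S` of the coordinates, of product measures whose factors
have the densities `h_i(s)` (`i ∉ S`) and `s h_i(s)` (`i ∈ S`), up to constants.
(1) The weights of the mixture are the coefficients of a log-concave multi-affine polynomial (`K1`,
`K2`; after a shift of the variables also `D1`), and a discrete Bochner inequality bounds the
variance of functions of `S` under such weights by the mean of `∑_{i ∈ S} (g(S) - g(S \ {i}))²`
(`D2`: a birth and death chain on all subsets with spectral gap one).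
(2) A one-dimensional inequality compares the means of a function under `h_i` and `s h_i`: the square
of the difference is at most an absolute constant times the variance of `h_i`, times the mean of the
square of the derivative (`L1`, `L2`), in each coordinate of the product measures (`Q`).
(3) With the inequality for the products (`E`) this gives a weighted Poincare inequality whose weights
are the variances of the factors (`K3`-`K5`, `T`).
(4) The covariance matrix of `μ` is at least an absolute constant times the diagonal matrix of the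
weights, since it is at least the mean of the covariance matrices of the product measures (`K5`,
`K6`); so all linear images have the inequality.
-/

set_option autoImplicit false

namespace Pool.Agent.Results.MP_6d896a_gt.LorentzianTilts

open MeasureTheory
open scoped InnerProductSpace

/-- Euclidean space of dimension `n` -/
abbrev Euc (n : ℕ) : Type := EuclideanSpace ℝ (Fin n)

/-- log-concave functions `h ≥ 0` on the line -/
structure LogConcave (h : ℝ → ℝ) : Prop where
  nonneg : ∀ s, 0 ≤ h s
  conc : ∀ x y t : ℝ, 0 < t → t < 1 → h x ^ (1 - t) * h y ^ t ≤ h ((1 - t) * x + t * y)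

/-- the multi-affine polynomial `∑_S c_S ∏_{i ∈ S} x_i` -/
noncomputable def multiAffine {n : ℕ} (c : Finset (Fin n) → ℝ) (x : Fin n → ℝ) : ℝ :=
  ∑ S, c S * ∏ i ∈ S, x i

/-- log-concavity of a function (which is nonnegative there) on the orthant `{x | x_i ≥ 0}` -/
def LogConcaveOnOrthant {n : ℕ} (F : (Fin n → ℝ) → ℝ) : Prop :=
  ∀ (x y : Fin n → ℝ) (t : ℝ), (∀ i, 0 ≤ x i) → (∀ i, 0 ≤ y i) → 0 < t → t < 1 →
    F x ^ (1 - t) * F y ^ t ≤ F (fun i => (1 - t) * x i + t * y i)

/-- the function `F(x) ∏ h_i(x_i)` -/
noncomputable def density {n : ℕ} (c : Finset (Fin n) → ℝ) (h : Fin n → ℝ → ℝ) (x : Euc n) : ℝ :=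
  multiAffine c (fun i => x i) * ∏ i, h i (x i)

/-- the measure with density proportional to `w` and total mass one -/
noncomputable def normalised {n : ℕ} (w : Euc n → ℝ) : Measure (Euc n) :=
  (∫⁻ x, ENNReal.ofReal (w x))⁻¹ • volume.withDensity fun x => ENNReal.ofReal (w x)

/-- Poincare inequality with constant `C`: every `C¹` function `f` whose gradient is in `L²(μ)` is in
`L²(μ)` and `Var_μ f ≤ C ∫ ‖∇ f‖² dμ` -/
def Poincare {n : ℕ} (μ : Measure (Euc n)) (C : ℝ) : Prop :=
  ∀ f : Euc n → ℝ, ContDiff ℝ 1 f → MemLp (fun x => ‖fderiv ℝ f x‖) 2 μ →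
    MemLp f 2 μ ∧ ProbabilityTheory.variance f μ ≤ C * ∫ x, ‖fderiv ℝ f x‖ ^ 2 ∂μ

/-- **KLS for product measures tilted by log-concave multi-affine polynomials.** There is an absolute
constant `C` such that for all `n`, all log-concave `h_1, …, h_n` on the line which vanish on the
negative half-line and have `0 < ∫ h_i < ∞` (the integral of a function which is not integrable is
zero by convention), and all `c_S ≥ 0`, not all zero, for which `F(x) = ∑_S c_S ∏_{i ∈ S} x_i` is
log-concave on the positive orthant, the measure `μ` on `ℝⁿ` with density proportional to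
`F(x) ∏ h_i(x_i)` is a probability measure with a log-concave density, and for every linear map `T`
from `ℝⁿ` to any `ℝᵐ` the Poincare constant of the law of `T X`, `X` distributed according to `μ`,
is at most `C s` for every bound `s` of the variances of its marginals in directions of length
one. -/
theorem result : ∃ C : ℝ, 0 < C ∧ ∀ (n : ℕ) (c : Finset (Fin n) → ℝ) (h : Fin n → ℝ → ℝ),
    (∀ S, 0 ≤ c S) → (∃ S, c S ≠ 0) → LogConcaveOnOrthant (multiAffine c) →
    (∀ i, LogConcave (h i)) → (∀ i s, s < 0 → h i s = 0) → (∀ i, 0 < ∫ s, h i s) →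
    ∀ μ : Measure (Euc n), μ = normalised (density c h) →
      IsProbabilityMeasure μ ∧
      (∀ (x y : Euc n) (t : ℝ), 0 < t → t < 1 →
        density c h x ^ (1 - t) * density c h y ^ t ≤ density c h ((1 - t) • x + t • y)) ∧
      ∀ (m : ℕ) (T : Euc n →ₗ[ℝ] Euc m) (s : ℝ),
        (∀ θ : Euc m, ‖θ‖ = 1 →
          ProbabilityTheory.variance (fun y => ⟪y, θ⟫_ℝ) (μ.map T) ≤ s) →
        Poincare (μ.map T) (C * s) := by
  refine ⟨28311552, by norm_num, fun n c h hc hne hF hh h0 hp μ hμ => ?_⟩
  have hl : ∀ i, Pool.Agent.K6.H24.OP.LC (h i) := fun i => ⟨(hh i).nonneg, (hh i).conc⟩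
  have hμ' : μ = Pool.Agent.K6.H46.LT.muE c h := hμ
  obtain ⟨h1, h2⟩ := Pool.Agent.K6.H46.LT.main_of Pool.Agent.K6.H46.LT.proof_D1
    Pool.Agent.K6.H46.LT.proof_D2 Pool.Agent.K6.H46.LT.proof_L1 Pool.Agent.K6.H46.LT.proof_L2
    Pool.Agent.K6.H46.LT.proof_E Pool.Agent.K6.H46.LT.proof_Q Pool.Agent.K6.H46.LT.proof_T
    n c h hc hne hF hl h0 hp
  refine ⟨hμ' ▸ h1, fun x y t ht ht' => ?_, fun m T s hs => ?_⟩
  · exact Pool.Agent.K6.H46.LT.den_lc hc hF hl h0 (fun i => x i) (fun i => y i) t ht ht'
  · rw [hμ'] at hs ⊢
    exact h2 m T s hs

end Pool.Agent.Results.MP_6d896a_gt.LorentzianTilts
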