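import Pool.Agent.K6.H24.OP.H4

/-!
# KLS for independent log-concave variables conditioned on order relations

Q1, in the equivalent (Cheeger, Buser, Ledoux) form of a Poincare inequality, for the log-concave
probability measures on `ℝⁿ` with a density proportional to
`∏ h(x_i) · 1{x_i ≤ x_j whenever R i j}`, for all `n`, all log-concave functions `h` on the line and
all partial orders `R` on `n` points, in the given coordinates: the Poincare constant is at most
`48 ‖A‖`, where `A` is the covariance matrix. For `h = 1_{[0,1]}` these are the uniform measures on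
the order polytopes, which were known (module `MP_8d00da_gt.OrderPolytopes` of the starting files);
the constant of the theorem for all `h` is new. More precisely the Poincare constant of the
conditioned measure is equal to the Poincare constant of the law of one variable, for every partial
order; this holds for all laws on the line without atoms, log-concave or not (theorem `general`).

Method. (1) For `n` labels on distinct sites of a path, subject to the order relations, with moves
which exchange the contents of two neighbouring sites if the relations allow it, at arbitrary rates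
of the bonds, the exchange at a bond maps functions which are Lipschitz for the distance
`∑ |ψ(z_i) - ψ(w_i)|` to functions which are Lipschitz for the distance of the averaged function `ψ`
(modules `A1`, `A2`). So the spectral gap is at least the one of a single label (`A3`-`A6`).
(2) With the rates given by the quantile function of the law and the gap of a single label bounded by
the Poincare constant of the law, the limit of infinitely many sites gives the inequality for
all laws without atoms (`B1`-`D4`). (3) Symmetric functions keep their mean under the conditioning,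
so the variance of `∑ x_i` is `n` times the variance of one variable (`E1`, `E2`). (4) Hardy type
inequality for log-concave laws on the line, constant `48 Var` (`G1`, `G2`).
-/

set_option autoImplicit false

namespace Pool.Agent.Results.MP_6d896a_gt.OrderRelations

open MeasureTheory
open scoped InnerProductSpace

/-- Euclidean space of dimension `n` -/
abbrev Euc (n : ℕ) : Type := EuclideanSpace ℝ (Fin n)

/-- log-concave functions `h ≥ 0` on the line -/
structure LogConcave (h : ℝ → ℝ) : Prop where
  nonneg : ∀ s, 0 ≤ h s
  conc : ∀ x y t : ℝ, 0 < t → t < 1 → h x ^ (1 - t) * h y ^ t ≤ h ((1 - t) * x + t * y)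

/-- the convex cone `{x ∈ ℝⁿ | x_i ≤ x_j whenever R i j}` -/
def orderCone {n : ℕ} (R : Fin n → Fin n → Prop) : Set (Euc n) :=
  {x | ∀ i j, R i j → x i ≤ x j}

/-- `∏ h(x_i)` on the cone of the order relations, zero outside -/
noncomputable def density {n : ℕ} (h : ℝ → ℝ) (R : Fin n → Fin n → Prop) (x : Euc n) : ℝ :=
  (orderCone R).indicator (fun x => ∏ i, h (x i)) x

/-- the measure with density proportional to `w` and total mass one -/
noncomputable def normalised {E : Type*} [MeasureSpace E] (w : E → ℝ) : Measure E :=
  (∫⁻ x, ENNReal.ofReal (w x))⁻¹ • volume.withDensity fun x => ENNReal.ofReal (w x)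

/-- Poincare inequality with constant `C`: every `C¹` function `f` whose gradient is in `L²(μ)` is in
`L²(μ)` and `Var_μ f ≤ C ∫ ‖∇ f‖² dμ` -/
def Poincare {E : Type*} [NormedAddCommGroup E] [NormedSpace ℝ E] [MeasurableSpace E]
    (μ : Measure E) (C : ℝ) : Prop :=
  ∀ f : E → ℝ, ContDiff ℝ 1 f → MemLp (fun x => ‖fderiv ℝ f x‖) 2 μ →
    MemLp f 2 μ ∧ ProbabilityTheory.variance f μ ≤ C * ∫ x, ‖fderiv ℝ f x‖ ^ 2 ∂μ

/-- **KLS for independent log-concave variables conditioned on order relations.** For all `n ≥ 1`,
all partial orders `R` on `n` points (reflexive or strict: only antisymmetry and transitivity are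
assumed) and all log-concave `h` on the line with `0 < ∫ h < ∞` (the integral of a function which is
not integrable is zero by convention) the measure `μ` on `ℝⁿ` with density proportional to
`∏ h(x_i) · 1{x_i ≤ x_j whenever R i j}` is a probability measure whose Poincare constant is at most
`48 s`, for every bound `s` of the variances of the marginals of `μ` in directions of length one. The
Poincare constant of `μ` is equal to the Poincare constant of the measure on the line with density
proportional to `h`. -/
theorem result : ∀ (n : ℕ) (R : Fin n → Fin n → Prop) (h : ℝ → ℝ), 1 ≤ n →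
    (∀ a b, R a b → R b a → a = b) → (∀ a b c, R a b → R b c → R a c) →
    LogConcave h → 0 < ∫ s, h s →
    ∀ μ : Measure (Euc n), μ = normalised (density h R) →
      IsProbabilityMeasure μ ∧
      (∀ s : ℝ, (∀ θ : Euc n, ‖θ‖ = 1 →
        ProbabilityTheory.variance (fun x => ⟪x, θ⟫_ℝ) μ ≤ s) → Poincare μ (48 * s)) ∧
      ∀ C : ℝ, 0 < C → (Poincare μ C ↔ Poincare (normalised h) C) := by
  intro n R h hn ha ht hh hpos μ hμ
  have hl : Pool.Agent.K6.H24.OP.LC h := ⟨hh.nonneg, hh.conc⟩
  have hR := Pool.Agent.K6.H24.OP.ext_of_po ha ht
  have hμ' : μ = Pool.Agent.K6.H24.OP.nrm (Pool.Agent.K6.H24.OP.pw h R) := hμ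
  have hp := Pool.Agent.K6.H24.OP.law_prob hl hpos
  have hnull := Pool.Agent.K6.H24.OP.law_null hl hpos
  obtain ⟨h1, h2, h3⟩ := Pool.Agent.K6.H24.OP.lc_case hl hpos hn hR
  refine ⟨hμ' ▸ h1, fun s hs => ?_, fun C hC => ?_⟩
  · have h4 := hs (Pool.Agent.K6.H24.OP.diag n) (Pool.Agent.K6.H24.OP.diag_norm hn)
    rw [hμ', h2] at h4
    have h5 := h3 s h4
    rw [← hμ'] at h5
    exact h5
  · have h4 := Pool.Agent.K6.H24.OP.pi_iff (ν := Pool.Agent.K6.H24.OP.law h) hC hn hR
    rw [← Pool.Agent.K6.H24.OP.nrm_eq hl hpos hR, ← hμ'] at h4
    exact h4

/-- the law of `n` independent variables with law `ν`, conditioned on the order relations -/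
noncomputable def ordered {n : ℕ} (ν : Measure ℝ) (R : Fin n → Fin n → Prop) : Measure (Euc n) :=
  ProbabilityTheory.cond (Measure.map (WithLp.toLp 2) (Measure.pi fun _ : Fin n => ν))
    (orderCone R)

/-- The equality of the Poincare constants for all laws without atoms. -/
theorem general (n : ℕ) (R : Fin n → Fin n → Prop) (ν : Measure ℝ) (hn : 1 ≤ n)
    (ha : ∀ a b, R a b → R b a → a = b) (ht : ∀ a b c, R a b → R b c → R a c)
    (hν : IsProbabilityMeasure ν) (hat : ∀ a, ν {a} = 0) (C : ℝ) (hC : 0 < C) :
    Poincare (ordered ν R) C ↔ Poincare ν C := by
  have hnull : NullSingletonClass ν := ⟨hat⟩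
  exact Pool.Agent.K6.H24.OP.pi_iff hC hn (Pool.Agent.K6.H24.OP.ext_of_po ha ht)

end Pool.Agent.Results.MP_6d896a_gt.OrderRelations
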